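import Pool.Agent.J6H52.Pw.Core

/-!
# Pell numbers with a large square factor, without loss of a logarithm

If `A ^ 2 ∣ P (3 A)` then `A' = P (3 A) / A` satisfies `A' ^ 2 ∣ P (3 A')`.
-/

set_option autoImplicit false

namespace Pool.Agent.J6H42.Pw

open Pool.Agent.J6H52.Pw N8b628fb0

/-- `C ∣ P a` implies `C * P a ∣ P (a * C)` -/
theorem mul_dvd (a C : ℕ) (hC : 0 < C) (h : (C : ℤ) ∣ P a) : (C : ℤ) * P a ∣ P (a * C) := by
  obtain ⟨j, rfl⟩ : ∃ j : ℕ, C = j + 1 := ⟨C - 1, by omega⟩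
  have h1 := (pow_mod a j).2.1
  have h2 : ((j + 1 : ℕ) : ℤ) * P a ∣ P a ^ 2 := by
    rw [pow_two]
    exact mul_dvd_mul_right h _
  have h3 : ((j + 1 : ℕ) : ℤ) * P a ∣ ((j : ℤ) + 1) * H a ^ j * P a :=
    ⟨H a ^ j, by push_cast; ring⟩
  have := dvd_add (h2.trans h1) h3
  simpa using this

theorem two_mul_sq_le (A : ℕ) (hA : 1 ≤ A) : 2 * A ^ 2 ≤ 2 ^ (3 * A - 1) := by
  induction A, hA using Nat.le_induction with
  | base => norm_num
  | succ n hn ih =>
    have e : 2 ^ (3 * (n + 1) - 1) = 8 * 2 ^ (3 * n - 1) := by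
      rw [show 3 * (n + 1) - 1 = 3 + (3 * n - 1) by omega, pow_add]
      norm_num
    rw [e]
    nlinarith

/-- the chain -/
theorem chain (b : ℕ) : ∃ A : ℕ, b < A ∧ A % 2 = 1 ∧ (A : ℤ) ^ 2 ∣ P (3 * A) := by
  induction b with
  | zero => exact ⟨1, by norm_num, by norm_num, by norm_num⟩
  | succ b ih =>
    obtain ⟨A, hA, ho, hd⟩ := ih
    obtain ⟨p, hp⟩ : ∃ p : ℕ, P (3 * A) = (p : ℤ) := ⟨(P (3 * A)).toNat, by
      rw [Int.toNat_of_nonneg (pos _).2]⟩
    rw [hp] at hd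
    have hd' : A ^ 2 ∣ p := by exact_mod_cast hd
    obtain ⟨C, hC⟩ := hd'
    have hge : 2 ^ (3 * A - 1) ≤ p := by
      have := (P_ge (3 * A - 1)).1
      rw [show 3 * A - 1 + 1 = 3 * A by omega, hp] at this
      exact_mod_cast this
    have h2 := two_mul_sq_le A (by omega)
    have hA2 : 0 < A ^ 2 := by
      have : 0 < A := by omega
      positivity
    have hC2 : 2 ≤ C := by
      have : A ^ 2 * 2 ≤ A ^ 2 * C := by rw [← hC]; omega
      exact Nat.le_of_mul_le_mul_left this hA2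
    refine ⟨A * C, ?_, ?_, ?_⟩
    · nlinarith
    · have h3 : p % 2 = 1 := by
        have := (P_mod_two ((3 * A - 1) / 2)).2.1
        rw [show 2 * ((3 * A - 1) / 2) + 1 = 3 * A by omega, hp] at this
        omega
      rcases Nat.mod_two_eq_zero_or_one (A * C) with h | h
      · exfalso
        have : p % 2 = 0 := by
          rw [hC, show A ^ 2 * C = A * (A * C) by ring, Nat.mul_mod, h, mul_zero]
          rfl
        omega
      · exact h
    · have h4 : (C : ℤ) ∣ P (3 * A) := by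
        rw [hp]
        exact_mod_cast Dvd.intro_left _ hC.symm
      have h5 := mul_dvd (3 * A) C (by omega) h4
      rw [hp, hC] at h5
      rw [← mul_assoc]
      have e : ((A * C : ℕ) : ℤ) ^ 2 = (C : ℤ) * ((A ^ 2 * C : ℕ) : ℤ) := by
        push_cast
        ring
      rw [e]
      exact h5

theorem P_le' (n : ℕ) : (2 : ℤ) ^ n * H n ≤ 5 ^ n ∧ 3 * 2 ^ n * P n ≤ 2 * 5 ^ n := by
  induction n with
  | zero => simp [H_zero, P_zero]
  | succ n ih =>
    obtain ⟨h1, h2⟩ := ih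
    have h5 : (0 : ℤ) < 5 ^ n := by positivity
    rw [H_succ, P_succ, pow_succ, pow_succ]
    constructor
    · nlinarith
    · nlinarith

/-- two consecutive powerful numbers followed by a multiple of a square `A ^ 2` with
`A ≥ (log n) / 6` -/
theorem core2 (b : ℕ) : ∃ n A : ℕ, b ≤ n ∧ 1 < n ∧ 0 < A ∧
    (∀ p : ℕ, p.Prime → p ∣ n → p ^ 2 ∣ n) ∧
    (∀ p : ℕ, p.Prime → p ∣ n + 1 → p ^ 2 ∣ n + 1) ∧ A ^ 2 ∣ n + 2 ∧
    Real.log n ≤ 6 * A := by
  obtain ⟨A, hbA, hAodd, hsq⟩ := chain (b + 6)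
  set t := 3 * A with ht
  have htodd : t % 2 = 1 := by omega
  obtain ⟨j, hj⟩ : ∃ j, t = 2 * j + 1 := ⟨t / 2, by omega⟩
  obtain ⟨Q, hQ⟩ : ∃ Q : ℕ, P (2 * j + 2) = (Q : ℤ) := ⟨(P (2 * j + 2)).toNat, by
    rw [Int.toNat_of_nonneg (pos _).2]⟩
  obtain ⟨h, hh⟩ : ∃ h : ℕ, H (2 * j + 2) = (h : ℤ) := ⟨(H (2 * j + 2)).toNat, by
    rw [Int.toNat_of_nonneg (pos _).1.le]⟩
  have hn : h ^ 2 = 2 * Q ^ 2 + 1 := by
    have := norm_even (j + 1)
    rw [show 2 * (j + 1) = 2 * j + 2 by ring, hh, hQ] at this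
    exact_mod_cast this
  have hQeven : Q % 2 = 0 := by
    have := (P_mod_two (j + 1)).1
    rw [show 2 * (j + 1) = 2 * j + 2 by ring, hQ] at this
    omega
  have hQt : 2 ^ t ≤ Q := by
    have h1 := (P_ge (2 * j + 1)).1
    rw [show 2 * j + 1 + 1 = 2 * j + 2 by ring, hQ, ← hj] at h1
    exact_mod_cast h1
  have htt : t < 2 ^ t := Nat.lt_pow_self (by norm_num)
  have hQ1 : b + 6 < Q := by omega
  have hQ0 : 0 < Q := by omega
  refine ⟨2 * Q ^ 2, A, by nlinarith, by nlinarith, by omega, ?_, ?_, ?_, ?_⟩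
  · intro p hp hpn
    rcases (Nat.Prime.dvd_mul hp).mp hpn with h2 | h2
    · have : p = 2 := (Nat.prime_dvd_prime_iff_eq hp Nat.prime_two).mp h2
      subst this
      obtain ⟨w, hw⟩ := Nat.dvd_of_mod_eq_zero hQeven
      exact ⟨2 * w ^ 2, by rw [hw]; ring⟩
    · have := hp.dvd_of_dvd_pow h2
      exact Dvd.dvd.mul_left (pow_dvd_pow_of_dvd this 2) 2
  · intro p hp hpn
    rw [← hn] at hpn ⊢
    exact pow_dvd_pow_of_dvd (hp.dvd_of_dvd_pow hpn) 2
  · have h1 := cassini j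
    rw [hh] at h1
    have h2 : (A : ℤ) ^ 2 ∣ (h : ℤ) ^ 2 + 1 := by
      rw [h1]
      rw [← hj]
      exact Dvd.dvd.mul_left hsq _
    have h3 : A ^ 2 ∣ h ^ 2 + 1 := by exact_mod_cast h2
    rw [hn] at h3
    exact h3
  · have h1 := (P_le' (2 * j + 2)).2
    rw [hQ, show 2 * j + 2 = t + 1 by omega] at h1
    have h2 : 3 * (2 : ℝ) ^ (t + 1) * Q ≤ 2 * 5 ^ (t + 1) := by exact_mod_cast h1
    have h3 : (Q : ℝ) ≤ (5 / 2) ^ (t + 1) * (2 / 3) := by
      rw [div_pow, div_mul_eq_mul_div, le_div_iff₀ (by positivity)]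
      nlinarith
    have hQr : (0 : ℝ) < Q := by exact_mod_cast hQ0
    have hAr : (6 : ℝ) ≤ A := by
      have : 6 ≤ A := by omega
      exact_mod_cast this
    have hlog2' : Real.log 2 < 0.6931471808 := Real.log_two_lt_d9
    have h5 : Real.log (5 / 2) ≤ 0.9432 := by
      have e : Real.log (5 / 2) = Real.log 2 + Real.log (5 / 4) := by
        rw [← Real.log_mul (by norm_num) (by norm_num)]
        norm_num
      have h9 : Real.log (5 / 4) ≤ 5 / 4 - 1 := Real.log_le_sub_one_of_pos (by norm_num)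
      rw [e]
      linarith
    have h6 : ((2 * Q ^ 2 : ℕ) : ℝ) ≤ ((5 / 2) ^ (t + 1)) ^ 2 := by
      push_cast
      have h7 : (0 : ℝ) < (5 / 2) ^ (t + 1) := by positivity
      nlinarith
    have h8 : Real.log ((2 * Q ^ 2 : ℕ) : ℝ) ≤ Real.log (((5 / 2 : ℝ) ^ (t + 1)) ^ 2) := by
      apply Real.log_le_log _ h6
      have : 0 < 2 * Q ^ 2 := by positivity
      exact_mod_cast this
    rw [Real.log_pow, Real.log_pow, ht] at h8
    push_cast at h8 ⊢
    nlinarith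

end Pool.Agent.J6H42.Pw
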